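import Pool.Agent.UL3.Stmts

/-!
# Squad UL3, row NRV: the mean of the inverse of the norm
-/

set_option autoImplicit false

namespace Pool.Agent.UL3.H59

open MeasureTheory Set Pool.Agent.UL3

/-- the test function -/
noncomputable def ps (r : ℝ) : ℝ := r⁻¹ - (69765 / 100000 + 19 / 1000 * (15 - 5 * r ^ 2))

lemma ps_sq (r : ℝ) : r ^ 2 * ps r
    = r - (69765 / 100000 + 285 / 1000) * r ^ 2 + 95 / 1000 * r ^ 4 := by
  unfold ps
  by_cases h : r = 0
  · subst h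
    norm_num
  · field_simp
    ring

theorem nrv (h : PolStmt) : NrvStmt := by
  intro K hK hconv h1 h2 h3
  have hcont : Continuous (fun r : ℝ => r ^ 2 * ps r) := by
    have e : (fun r : ℝ => r ^ 2 * ps r)
        = fun r : ℝ => r - (69765 / 100000 + 285 / 1000) * r ^ 2 + 95 / 1000 * r ^ 4 :=
      funext ps_sq
    rw [e]
    fun_prop
  have hint : ∀ ρ ∈ Icc (197 / 100 : ℝ) (14 / 5), ∫ r in (0 : ℝ)..ρ, r ^ 2 * ps r ≤ 0 := by
    intro ρ hρ
    have e : ∫ r in (0 : ℝ)..ρ, r ^ 2 * ps r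
        = ρ ^ 2 / 2 - (69765 / 100000 + 285 / 1000) * (ρ ^ 3 / 3) + 95 / 1000 * (ρ ^ 5 / 5) := by
      have e1 : ∀ x : ℝ, HasDerivAt (fun r : ℝ => r ^ 2 / 2
          - (69765 / 100000 + 285 / 1000) * (r ^ 3 / 3) + 95 / 1000 * (r ^ 5 / 5))
          (x ^ 2 * ps x) x := by
        intro x
        rw [ps_sq]
        have a1 : HasDerivAt (fun r : ℝ => r ^ 2 / 2) (((2 : ℕ) : ℝ) * x ^ (2 - 1) / 2) x :=
          (hasDerivAt_pow 2 x).div_const 2
        have a2 : HasDerivAt (fun r : ℝ => (69765 / 100000 + 285 / 1000) * (r ^ 3 / 3))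
            ((69765 / 100000 + 285 / 1000) * (((3 : ℕ) : ℝ) * x ^ (3 - 1) / 3)) x :=
          ((hasDerivAt_pow 3 x).div_const 3).const_mul _
        have a3 : HasDerivAt (fun r : ℝ => 95 / 1000 * (r ^ 5 / 5))
            (95 / 1000 * (((5 : ℕ) : ℝ) * x ^ (5 - 1) / 5)) x :=
          ((hasDerivAt_pow 5 x).div_const 5).const_mul _
        refine ((a1.sub a2).add a3).congr_deriv ?_
        push_cast
        ring
      rw [intervalIntegral.integral_eq_sub_of_hasDerivAt (fun x _ => e1 x)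
        (hcont.intervalIntegrable _ _)]
      ring
    rw [e]
    obtain ⟨ha, hb⟩ := hρ
    have hp : 0 ≤ (ρ - 197 / 100) * (14 / 5 - ρ) * (ρ + 197 / 100 + 14 / 5) :=
      mul_nonneg (mul_nonneg (by linarith) (by linarith)) (by linarith)
    have hq : 0 ≤ -(38 / 1000) * ρ ^ 3 + 6551 / 10000 * ρ - 1 := by nlinarith
    have e2 : ρ ^ 2 / 2 - (69765 / 100000 + 285 / 1000) * (ρ ^ 3 / 3) + 95 / 1000 * (ρ ^ 5 / 5)
        = -(ρ ^ 2 / 2 * (-(38 / 1000) * ρ ^ 3 + 6551 / 10000 * ρ - 1)) := by ring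
    rw [e2]
    have := mul_nonneg (by positivity : (0 : ℝ) ≤ ρ ^ 2 / 2) hq
    linarith
  obtain ⟨i1, i2⟩ := h K (197 / 100) (14 / 5) ps hK hconv (by norm_num) h1 h2 hcont hint
  have hc : IntegrableOn (fun x : E3 => (69765 / 100000 + 19 / 1000 * (15 - 5 * ‖x‖ ^ 2) : ℝ)) K :=
    (by fun_prop : Continuous (fun x : E3 =>
      (69765 / 100000 + 19 / 1000 * (15 - 5 * ‖x‖ ^ 2) : ℝ))).continuousOn.integrableOn_compact hK
  have hsq : IntegrableOn (fun x : E3 => ‖x‖ ^ 2) K :=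
    (by fun_prop : Continuous (fun x : E3 => ‖x‖ ^ 2)).continuousOn.integrableOn_compact hK
  have e3 : (fun x : E3 => ‖x‖⁻¹)
      = fun x : E3 => ps ‖x‖ + (69765 / 100000 + 19 / 1000 * (15 - 5 * ‖x‖ ^ 2)) := by
    funext x
    unfold ps
    ring
  have i3 : IntegrableOn (fun x : E3 => ‖x‖⁻¹) K := by
    rw [e3]
    exact i1.add hc
  refine ⟨i3, ?_⟩
  have e4 : ∫ x in K, ‖x‖⁻¹ = (∫ x in K, ps ‖x‖)
      + ∫ x in K, (69765 / 100000 + 19 / 1000 * (15 - 5 * ‖x‖ ^ 2) : ℝ) := by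
    rw [e3]
    exact integral_add i1 hc
  have hconst : ∀ c : ℝ, IntegrableOn (fun _ : E3 => c) K := fun c =>
    (continuous_const.continuousOn).integrableOn_compact hK
  have hV : ∀ c : ℝ, ∫ _x in K, c = c * V K := by
    intro c
    rw [setIntegral_const, smul_eq_mul, mul_comm]
    rfl
  have e5 : ∫ x in K, (69765 / 100000 + 19 / 1000 * (15 - 5 * ‖x‖ ^ 2) : ℝ)
      = 69765 / 100000 * V K := by
    have e6 : (fun x : E3 => (69765 / 100000 + 19 / 1000 * (15 - 5 * ‖x‖ ^ 2) : ℝ))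
        = fun x : E3 => (69765 / 100000 + 285 / 1000 : ℝ) - 95 / 1000 * ‖x‖ ^ 2 := by
      funext x
      ring
    rw [e6, integral_sub (hconst _) (hsq.const_mul _), hV, integral_const_mul, h3]
    ring
  rw [e4, e5]
  linarith

end Pool.Agent.UL3.H59
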